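import Pool.Agent.V11202.PW.Main

set_option autoImplicit false
set_option linter.unnecessarySeqFocus false
set_option linter.unusedSimpArgs false
set_option linter.unreachableTactic false
set_option linter.unusedTactic false

open scoped ContDiff Topology
open Filter Pool.Agent.V11202.CK Pool.Agent.V11202.KS

namespace Pool.Agent.V11202.PW

theorem conf4_eq {F : Eu 4 → Eu 4} {φ : Eu 4 → ℝ} {x : Eu 4} {G : Eu 4 → Mt 4}
    (e : (Jac4 F x).transpose * gpp (F x) * Jac4 F x = φ x ^ 2 • G x) (i j : Fin 4) :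
    F x 1 ^ 2 * pd i (fun y => F y 0) x * pd j (fun y => F y 0) x +
      pd i (fun y => F y 0) x * pd j (fun y => F y 3) x +
      pd i (fun y => F y 3) x * pd j (fun y => F y 0) x +
      pd i (fun y => F y 1) x * pd j (fun y => F y 1) x +
      pd i (fun y => F y 2) x * pd j (fun y => F y 2) x =
      (φ x ^ 2 * Real.exp (√2 * F x 0)) * G x i j := by
  have h1 := congrFun (congrFun e i) j
  rw [Matrix.smul_apply, smul_eq_mul] at h1
  have h2 : Real.exp (√2 * F x 0) * Real.exp (-(√2 * F x 0)) = 1 := by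
    rw [← Real.exp_add]; simp
  have h3 : ((Jac4 F x).transpose * gpp (F x) * Jac4 F x) i j =
      Real.exp (-(√2 * F x 0)) * (F x 1 ^ 2 * pd i (fun y => F y 0) x * pd j (fun y => F y 0) x +
      pd i (fun y => F y 0) x * pd j (fun y => F y 3) x +
      pd i (fun y => F y 3) x * pd j (fun y => F y 0) x +
      pd i (fun y => F y 1) x * pd j (fun y => F y 1) x +
      pd i (fun y => F y 2) x * pd j (fun y => F y 2) x) := by
    simp [Matrix.mul_apply, Fin.sum_univ_four, gpp, Jac4]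
    ring
  rw [h3] at h1
  linear_combination Real.exp (√2 * F x 0) * h1 - (F x 1 ^ 2 * pd i (fun y => F y 0) x *
      pd j (fun y => F y 0) x +
      pd i (fun y => F y 0) x * pd j (fun y => F y 3) x +
      pd i (fun y => F y 3) x * pd j (fun y => F y 0) x +
      pd i (fun y => F y 1) x * pd j (fun y => F y 1) x +
      pd i (fun y => F y 2) x * pd j (fun y => F y 2) x) * h2

theorem no_conf4 {p : Eu 4} {U : Set (Eu 4)} (hU : IsOpen U) (hpU : p ∈ U)
    {F : Eu 4 → Eu 4} {φ : Eu 4 → ℝ} (hc : ConfMap4 U gw gpp F φ) : False := by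
  have hUn : U ∈ 𝓝 p := hU.mem_nhds hpU
  have s : ∀ i, ContDiffAt ℝ ∞ (fun x => F x i) p := fun i => (hc.smooth i).contDiffAt hUn
  have sφ : ContDiffAt ℝ ∞ φ p := hc.smooth_φ.contDiffAt hUn
  have sE : ContDiffAt ℝ ∞ (fun x => φ x ^ 2 * Real.exp (√2 * F x 0)) p :=
    (sφ.pow 2).mul (contDiffAt_const.mul (s 0)).exp
  have hne : φ p ^ 2 * Real.exp (√2 * F p 0) ≠ 0 :=
    mul_ne_zero (pow_ne_zero 2 (hc.pos p hpU).ne') (Real.exp_pos _).ne'
  have sF : ContDiffAt ℝ ∞ (fun x => (φ x ^ 2 * Real.exp (√2 * F x 0))⁻¹) p := sE.inv hne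
  have hEF : mk _ sE * mk _ sF = 1 := by
    rw [mk_mul, mk_one, mk_eq]
    filter_upwards [hUn] with x hx
    exact mul_inv_cancel₀ (mul_ne_zero (pow_ne_zero 2 (hc.pos x hx).ne') (Real.exp_pos _).ne')
  have K : ∀ i j (c : Eu 4 → ℝ) (sc : ContDiffAt ℝ ∞ c p), (∀ x, gw x i j = c x) →
      mk _ (s 1) ^ 2 * D i (mk _ (s 0)) * D j (mk _ (s 0)) +
      D i (mk _ (s 0)) * D j (mk _ (s 3)) + D i (mk _ (s 3)) * D j (mk _ (s 0)) +
      D i (mk _ (s 1)) * D j (mk _ (s 1)) + D i (mk _ (s 2)) * D j (mk _ (s 2)) =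
      mk _ sE * mk c sc := by
    intro i j c sc hgc
    simp only [D_mk, mk_pow, mk_mul, mk_add, mk_eq]
    filter_upwards [hUn] with x hxU
    have := conf4_eq (hc.eq x hxU) i j
    simp only [Pi.add_apply, Pi.mul_apply, Pi.pow_apply]
    rw [← hgc x, ← this]
  have e1 : mk (fun _ => (1 : ℝ)) (contDiffAt_const (x := p)) = (1 : SG p) := rfl
  have e0 : mk (fun _ => (0 : ℝ)) (contDiffAt_const (x := p)) = (0 : SG p) := rfl
  have sH : ContDiffAt ℝ ∞ (fun x : Eu 4 => x 2 ^ 3 - 3 * (x 2 * x 3 ^ 2)) p :=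
    ((sco p 2).pow 3).sub (contDiffAt_const.mul ((sco p 2).mul ((sco p 3).pow 2)))
  have eH : mk _ sH = (sp p).H := rfl
  have k00 := K 0 0 _ sH (fun x => by simp [gw]; ring)
  have k01 := K 0 1 (fun _ => 1) contDiffAt_const (fun x => by simp [gw])
  have k02 := K 0 2 (fun _ => 0) contDiffAt_const (fun x => by simp [gw])
  have k03 := K 0 3 (fun _ => 0) contDiffAt_const (fun x => by simp [gw])
  have k11 := K 1 1 (fun _ => 0) contDiffAt_const (fun x => by simp [gw])
  have k12 := K 1 2 (fun _ => 0) contDiffAt_const (fun x => by simp [gw])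
  have k13 := K 1 3 (fun _ => 0) contDiffAt_const (fun x => by simp [gw])
  have k22 := K 2 2 (fun _ => 1) contDiffAt_const (fun x => by simp [gw])
  have k23 := K 2 3 (fun _ => 0) contDiffAt_const (fun x => by simp [gw])
  have k33 := K 3 3 (fun _ => 1) contDiffAt_const (fun x => by simp [gw])
  rw [e1] at k01 k22 k33
  rw [e0] at k02 k03 k11 k12 k13 k23
  rw [eH] at k00
  exact (sp p).no_iso hEF k00 k01 k02 k03 k11 k12 k13 k22 k23 k33

end Pool.Agent.V11202.PW
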