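import Pool.Agent.V11202.CK.Geo
import Pool.Agent.V11202.KS.Defs

set_option autoImplicit false
set_option linter.unnecessarySeqFocus false
set_option linter.unusedSimpArgs false
set_option linter.unreachableTactic false
set_option linter.unusedTactic false

open scoped ContDiff Topology
open Filter Pool.Agent.V11202.CK Pool.Agent.V11202.KS

namespace Pool.Agent.V11202.PW

/-- `G` is the matrix of a smooth Lorentzian metric on `ℝ⁴`: smooth entries, symmetric,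
congruent to `diag(-1,1,1,1)` at every point -/
structure IsLorentz4 (G : Eu 4 → Mt 4) : Prop where
  smooth : ∀ i j, ContDiff ℝ ∞ (fun x => G x i j)
  symm : ∀ x i j, G x i j = G x j i
  sign : ∀ x, ∃ A : Mt 4, IsUnit A.det ∧ A.transpose * G x * A = Matrix.diagonal ![-1, 1, 1, 1]

/-- Ricci tensor `Ric_{βν} = R^α_{βαν}` -/
noncomputable def Rc (G : Eu 4 → Mt 4) (β ν : Fin 4) (x : Eu 4) : ℝ := ∑ α, Riem G α β α ν x

/-- scalar curvature -/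
noncomputable def Sc (G : Eu 4 → Mt 4) (x : Eu 4) : ℝ := ∑ i, ∑ j, (G x)⁻¹ i j * Rc G i j x

/-- the Schouten tensor `P = (1/2) (Ric - (Sc/6) g)` in dimension four -/
noncomputable def Sn (G : Eu 4 → Mt 4) (i j : Fin 4) (x : Eu 4) : ℝ :=
  1 / 2 * (Rc G i j x - Sc G x / 6 * G x i j)

/-- the Weyl tensor `W^α_{βμν} = R^α_{βμν} - (δ^α_μ P_{βν} - δ^α_ν P_{βμ} + g_{βν} P^α_μ - g_{βμ} P^α_ν)` -/
noncomputable def Wl (G : Eu 4 → Mt 4) (α β μ ν : Fin 4) (x : Eu 4) : ℝ :=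
  Riem G α β μ ν x - ((1 : Mt 4) α μ * Sn G β ν x - (1 : Mt 4) α ν * Sn G β μ x +
    G x β ν * (∑ σ, (G x)⁻¹ α σ * Sn G σ μ x) - G x β μ * (∑ σ, (G x)⁻¹ α σ * Sn G σ ν x))

/-- the Hessian `∇_i ∇_j σ` -/
noncomputable def Hes (G : Eu 4 → Mt 4) (σ : Eu 4 → ℝ) (i j : Fin 4) (x : Eu 4) : ℝ :=
  pd i (pd j σ) x - ∑ k, Gam G k i j x * pd k σ x

/-- almost Einstein scale: `σ` is smooth and `∇∇σ + P σ` is pure trace -/
structure IsAE (G : Eu 4 → Mt 4) (σ : Eu 4 → ℝ) : Prop where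
  smooth : ContDiff ℝ ∞ σ
  eq : ∀ x, ∃ ρ : ℝ, ∀ i j, Hes G σ i j x + Sn G i j x * σ x = ρ * G x i j

/-- the metric `2 du dv + (x³ - 3xy²) du² + dx² + dy²` in the coordinates `(u, v, x, y)` -/
noncomputable def gw (p : Eu 4) : Mt 4 :=
  !![p 2 ^ 3 - 3 * p 2 * p 3 ^ 2, 1, 0, 0; 1, 0, 0, 0; 0, 0, 1, 0; 0, 0, 0, 1]

/-- the metric `g_pp = e^{-√2 t} (x² dt² + 2 dt dz + dx² + dy²)` in the coordinates
`(t, x, y, z)` -/
noncomputable def gpp (p : Eu 4) : Mt 4 :=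
  Real.exp (-(√2 * p 0)) • !![p 1 ^ 2, 0, 0, 1; 0, 1, 0, 0; 0, 0, 1, 0; 1, 0, 0, 0]

/-- the Jacobian matrix of a map -/
noncomputable def Jac4 (F : Eu 4 → Eu 4) (x : Eu 4) : Mt 4 :=
  Matrix.of fun a i => pd i (fun y => F y a) x

/-- `F` is smooth on `U` and `F^* G' = φ² G` on `U` with `φ > 0` smooth -/
structure ConfMap4 (U : Set (Eu 4)) (G G' : Eu 4 → Mt 4) (F : Eu 4 → Eu 4) (φ : Eu 4 → ℝ) :
    Prop where
  smooth : ∀ i, ContDiffOn ℝ ∞ (fun x => F x i) U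
  smooth_φ : ContDiffOn ℝ ∞ φ U
  pos : ∀ x ∈ U, 0 < φ x
  eq : ∀ x ∈ U, (Jac4 F x).transpose * G' (F x) * Jac4 F x = φ x ^ 2 • G x

/-! ### monomials -/

/-- `c x^m y^k` -/
noncomputable def mo (c : ℝ) (m k : ℕ) (p : Eu 4) : ℝ := c * (p 2 ^ m * p 3 ^ k)

theorem cd_mo (c : ℝ) (m k : ℕ) : ContDiff ℝ ∞ (mo c m k) :=
  contDiff_const.mul (((contDiff_apply ℝ ℝ (2 : Fin 4)).pow m).mul
    ((contDiff_apply ℝ ℝ (3 : Fin 4)).pow k))

theorem dif_mo (c : ℝ) (m k : ℕ) : Differentiable ℝ (mo c m k) :=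
  (cd_mo c m k).differentiable (by simp)

theorem pd_mo (l : Fin 4) (c : ℝ) (m k : ℕ) (p : Eu 4) : pd l (mo c m k) p =
    if l = 2 then c * (m * p 2 ^ (m - 1) * p 3 ^ k) else
      if l = 3 then c * (p 2 ^ m * (k * p 3 ^ (k - 1))) else 0 := by
  have h2 : HasFDerivAt (fun v : Eu 4 => v 2) (ContinuousLinearMap.proj (R := ℝ)
      (φ := fun _ : Fin 4 => ℝ) 2) p := hasFDerivAt_apply 2 p
  have h3 : HasFDerivAt (fun v : Eu 4 => v 3) (ContinuousLinearMap.proj (R := ℝ)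
      (φ := fun _ : Fin 4 => ℝ) 3) p := hasFDerivAt_apply 3 p
  have h := ((h2.pow m).mul (h3.pow k)).const_mul c
  have e : fderiv ℝ (mo c m k) p = _ := h.fderiv
  rw [pd, e]
  simp only [_root_.smul_apply, _root_.add_apply, ContinuousLinearMap.proj_apply, Pi.single_apply,
    smul_eq_mul, nsmul_eq_mul]
  by_cases a : l = 2
  · subst a
    rw [if_neg (by decide), if_pos rfl, if_pos rfl]
    ring
  · by_cases b : l = 3
    · subst b
      rw [if_pos rfl, if_neg (by decide), if_neg (by decide), if_pos rfl]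
      ring
    · rw [if_neg (fun h => b h.symm), if_neg (fun h => a h.symm), if_neg a, if_neg b]
      ring

theorem pd_add' {f g : Eu 4 → ℝ} (hf : Differentiable ℝ f) (hg : Differentiable ℝ g) (i : Fin 4)
    (x : Eu 4) : pd i (fun y => f y + g y) x = pd i f x + pd i g x := by
  rw [pd, fderiv_fun_add (hf x) (hg x)]
  rfl

/-- `c₁ x^m₁ y^k₁ + c₂ x^m₂ y^k₂` -/
noncomputable def m2 (c : ℝ) (m k : ℕ) (c' : ℝ) (m' k' : ℕ) (p : Eu 4) : ℝ :=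
  mo c m k p + mo c' m' k' p

theorem pd_m2 (l : Fin 4) (c : ℝ) (m k : ℕ) (c' : ℝ) (m' k' : ℕ) (p : Eu 4) :
    pd l (m2 c m k c' m' k') p = pd l (mo c m k) p + pd l (mo c' m' k') p :=
  pd_add' (dif_mo _ _ _) (dif_mo _ _ _) l p

theorem gw_entry (i j : Fin 4) : (fun y => gw y i j) =
    if i = 0 ∧ j = 0 then m2 1 3 0 (-3) 1 2
    else if (i = 0 ∧ j = 1) ∨ (i = 1 ∧ j = 0) ∨ (i = 2 ∧ j = 2) ∨ (i = 3 ∧ j = 3) then
      m2 1 0 0 0 0 0 else m2 0 0 0 0 0 0 := by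
  funext y
  fin_cases i <;> fin_cases j <;> simp [gw, m2, mo] <;> ring

theorem pd_gw (l i j : Fin 4) (p : Eu 4) : pd l (fun y => gw y i j) p =
    if i = 0 ∧ j = 0 ∧ l = 2 then 3 * p 2 ^ 2 - 3 * p 3 ^ 2 else
      if i = 0 ∧ j = 0 ∧ l = 3 then - 6 * (p 2 * p 3) else 0 := by
  rw [gw_entry]
  fin_cases i <;> fin_cases j <;> fin_cases l <;> simp [pd_m2, pd_mo] <;> ring

theorem gw_inv (p : Eu 4) : (gw p)⁻¹ =
    !![0, 1, 0, 0; 1, -(p 2 ^ 3 - 3 * p 2 * p 3 ^ 2), 0, 0; 0, 0, 1, 0; 0, 0, 0, 1] := by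
  apply Matrix.inv_eq_left_inv
  ext i j
  fin_cases i <;> fin_cases j <;>
    simp [gw, Matrix.mul_apply, Fin.sum_univ_four]

theorem gw_lorentz : IsLorentz4 gw := by
  refine ⟨fun i j => ?_, fun x i j => ?_, fun x => ?_⟩
  · rw [gw_entry]
    have h : ∀ c m k c' m' k', ContDiff ℝ ∞ (m2 c m k c' m' k') :=
      fun c m k c' m' k' => (cd_mo c m k).add (cd_mo c' m' k')
    split_ifs <;> exact h _ _ _ _ _ _
  · fin_cases i <;> fin_cases j <;> simp [gw]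
  · obtain ⟨H, hH⟩ : ∃ H, H = x 2 ^ 3 - 3 * x 2 * x 3 ^ 2 := ⟨_, rfl⟩
    refine ⟨!![1, 1, 0, 0; (-1 - H) / 2, (1 - H) / 2, 0, 0; 0, 0, 1, 0; 0, 0, 0, 1], ?_, ?_⟩
    · rw [isUnit_iff_ne_zero]
      have : (!![1, 1, 0, 0; (-1 - H) / 2, (1 - H) / 2, 0, 0; 0, 0, 1, 0; 0, 0, 0, 1] : Mt 4).det
          = 1 := by
        simp [Matrix.det_succ_row_zero, Fin.sum_univ_succ, Fin.succAbove]
        ring
      rw [this]
      norm_num
    · ext i j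
      fin_cases i <;> fin_cases j <;>
        simp [gw, Matrix.mul_apply, Fin.sum_univ_four, ← hH] <;> ring

/-- explicit Christoffel symbols -/
noncomputable def gmw (k i j : Fin 4) : Eu 4 → ℝ :=
  if k = 2 ∧ i = 0 ∧ j = 0 then m2 (-3 / 2) 2 0 (3 / 2) 0 2
  else if k = 3 ∧ i = 0 ∧ j = 0 then m2 3 1 1 0 0 0
  else if k = 1 ∧ ((i = 0 ∧ j = 2) ∨ (i = 2 ∧ j = 0)) then m2 (3 / 2) 2 0 (-3 / 2) 0 2
  else if k = 1 ∧ ((i = 0 ∧ j = 3) ∨ (i = 3 ∧ j = 0)) then m2 (-3) 1 1 0 0 0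
  else m2 0 0 0 0 0 0

theorem Gam_gw (k i j : Fin 4) : Gam gw k i j = gmw k i j := by
  funext x
  simp only [Gam, gw_inv, pd_gw, Fin.sum_univ_four, gmw]
  fin_cases k <;> fin_cases i <;> fin_cases j <;> simp [m2, mo] <;> ring

theorem Rc_gw (i j : Fin 4) (x : Eu 4) : Rc gw i j x = 0 := by
  simp only [Rc, Riem, Gam_gw, Fin.sum_univ_four]
  fin_cases i <;> fin_cases j <;> simp [gmw, pd_m2, pd_mo] <;> simp [m2, mo] <;> ring

theorem Sc_gw (x : Eu 4) : Sc gw x = 0 := by simp [Sc, Rc_gw]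

theorem Sn_gw (i j : Fin 4) (x : Eu 4) : Sn gw i j x = 0 := by simp [Sn, Rc_gw, Sc_gw]

theorem Wl_gw : Wl gw 2 0 2 0 ![0, 0, 1, 0] ≠ 0 := by
  simp only [Wl, Sn_gw, Riem, Gam_gw, Fin.sum_univ_four]
  simp [gmw, pd_m2, pd_mo]
  simp [m2, mo]

end Pool.Agent.V11202.PW
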