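import Pool.Agent.V11202.PW.Ring

set_option autoImplicit false
set_option linter.unusedSimpArgs false
set_option linter.unusedVariables false

namespace Pool.Agent.V11202.PW

open Pool.Agent.V11202.CK

variable {R : Type*} [CommRing R]

/-- naturality of the Lie derivative along a field `k` with `k A = k B = k T = 0`, `k Z = 1` -/
theorem ckf4 (du dv dx dy Da Db : Derivation ℤ R R)
    (au : ∀ f, Da (du f) = du (Da f)) (av : ∀ f, Da (dv f) = dv (Da f))
    (ax : ∀ f, Da (dx f) = dx (Da f)) (ay : ∀ f, Da (dy f) = dy (Da f))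
    (bu : ∀ f, Db (du f) = du (Db f)) (bv : ∀ f, Db (dv f) = dv (Db f))
    (bx : ∀ f, Db (dx f) = dx (Db f)) (by' : ∀ f, Db (dy f) = dy (Db f))
    {A B T Z E a b c d Gab Gub Gvb Gxb Gyb Gau Gav Gax Gay : R}
    (hab : A ^ 2 * Da T * Db T + Da T * Db Z + Da Z * Db T + Da A * Db A + Da B * Db B = E * Gab)
    (hub : A ^ 2 * du T * Db T + du T * Db Z + du Z * Db T + du A * Db A + du B * Db B = E * Gub)
    (hvb : A ^ 2 * dv T * Db T + dv T * Db Z + dv Z * Db T + dv A * Db A + dv B * Db B = E * Gvb)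
    (hxb : A ^ 2 * dx T * Db T + dx T * Db Z + dx Z * Db T + dx A * Db A + dx B * Db B = E * Gxb)
    (hyb : A ^ 2 * dy T * Db T + dy T * Db Z + dy Z * Db T + dy A * Db A + dy B * Db B = E * Gyb)
    (hau : A ^ 2 * Da T * du T + Da T * du Z + Da Z * du T + Da A * du A + Da B * du B = E * Gau)
    (hav : A ^ 2 * Da T * dv T + Da T * dv Z + Da Z * dv T + Da A * dv A + Da B * dv B = E * Gav)
    (hax : A ^ 2 * Da T * dx T + Da T * dx Z + Da Z * dx T + Da A * dx A + Da B * dx B = E * Gax)
    (hay : A ^ 2 * Da T * dy T + Da T * dy Z + Da Z * dy T + Da A * dy A + Da B * dy B = E * Gay)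
    (kA : a * du A + b * dv A + c * dx A + d * dy A = 0)
    (kB : a * du B + b * dv B + c * dx B + d * dy B = 0)
    (kT : a * du T + b * dv T + c * dx T + d * dy T = 0)
    (kZ : a * du Z + b * dv Z + c * dx Z + d * dy Z = 1) :
    E * (a * du Gab + b * dv Gab + c * dx Gab + d * dy Gab +
      (Da a * Gub + Da b * Gvb + Da c * Gxb + Da d * Gyb) +
      (Db a * Gau + Db b * Gav + Db c * Gax + Db d * Gay)) +
      (a * du E + b * dv E + c * dx E + d * dy E) * Gab = 0 := by
  have m1 := congrArg du hab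
  have m2 := congrArg dv hab
  have m3 := congrArg dx hab
  have m4 := congrArg dy hab
  have pA := congrArg Da kA
  have pB := congrArg Da kB
  have pT := congrArg Da kT
  have pZ := congrArg Da kZ
  have qA := congrArg Db kA
  have qB := congrArg Db kB
  have qT := congrArg Db kT
  have qZ := congrArg Db kZ
  simp only [map_add, Derivation.leibniz, Derivation.leibniz_pow, smul_eq_mul, nsmul_eq_mul,
    au, av, ax, ay, bu, bv, bx, by', map_zero, Derivation.map_one_eq_zero, Nat.cast_ofNat,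
    Nat.add_one_sub_one, pow_one] at m1 m2 m3 m4 pA pB pT pZ qA qB qT qZ
  linear_combination -(a * m1 + b * m2 + c * m3 + d * m4) + Db A * pA + Da A * qA +
    Db B * pB + Da B * qB + A ^ 2 * (Db T * pT + Da T * qT) + Db Z * pT + Da Z * qT +
    Db T * pZ + Da T * qZ + 2 * A * Da T * Db T * kA -
    (Da a * hub + Da b * hvb + Da c * hxb + Da d * hyb) -
    (Db a * hau + Db b * hav + Db c * hax + Db d * hay)

theorem Setup.no_iso [Nontrivial R] (s : Setup R) {A B T Z E F : R} (hEF : E * F = 1)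
    (uu : A ^ 2 * s.du T * s.du T + s.du T * s.du Z + s.du Z * s.du T + s.du A * s.du A +
      s.du B * s.du B = E * s.H)
    (uv : A ^ 2 * s.du T * s.dv T + s.du T * s.dv Z + s.du Z * s.dv T + s.du A * s.dv A +
      s.du B * s.dv B = E * 1)
    (ux : A ^ 2 * s.du T * s.dx T + s.du T * s.dx Z + s.du Z * s.dx T + s.du A * s.dx A +
      s.du B * s.dx B = E * 0)
    (uy : A ^ 2 * s.du T * s.dy T + s.du T * s.dy Z + s.du Z * s.dy T + s.du A * s.dy A +
      s.du B * s.dy B = E * 0)
    (vv : A ^ 2 * s.dv T * s.dv T + s.dv T * s.dv Z + s.dv Z * s.dv T + s.dv A * s.dv A +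
      s.dv B * s.dv B = E * 0)
    (vx : A ^ 2 * s.dv T * s.dx T + s.dv T * s.dx Z + s.dv Z * s.dx T + s.dv A * s.dx A +
      s.dv B * s.dx B = E * 0)
    (vy : A ^ 2 * s.dv T * s.dy T + s.dv T * s.dy Z + s.dv Z * s.dy T + s.dv A * s.dy A +
      s.dv B * s.dy B = E * 0)
    (xx : A ^ 2 * s.dx T * s.dx T + s.dx T * s.dx Z + s.dx Z * s.dx T + s.dx A * s.dx A +
      s.dx B * s.dx B = E * 1)
    (xy : A ^ 2 * s.dx T * s.dy T + s.dx T * s.dy Z + s.dx Z * s.dy T + s.dx A * s.dy A +
      s.dx B * s.dy B = E * 0)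
    (yy : A ^ 2 * s.dy T * s.dy T + s.dy T * s.dy Z + s.dy Z * s.dy T + s.dy A * s.dy A +
      s.dy B * s.dy B = E * 1) : False := by
  have hEc : ∀ f : R, E * f = 0 → f = 0 := by
    intro f hf
    have : F * (E * f) = 0 := by rw [hf, mul_zero]
    linear_combination this - f * hEF
  have hFc : ∀ f : R, F * f = 0 → f = 0 := by
    intro f hf
    have : E * (F * f) = 0 := by rw [hf, mul_zero]
    linear_combination this - f * hEF
  have vu : A ^ 2 * s.dv T * s.du T + s.dv T * s.du Z + s.dv Z * s.du T + s.dv A * s.du A +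
      s.dv B * s.du B = E * 1 := by linear_combination uv
  have xu : A ^ 2 * s.dx T * s.du T + s.dx T * s.du Z + s.dx Z * s.du T + s.dx A * s.du A +
      s.dx B * s.du B = E * 0 := by linear_combination ux
  have yu : A ^ 2 * s.dy T * s.du T + s.dy T * s.du Z + s.dy Z * s.du T + s.dy A * s.du A +
      s.dy B * s.du B = E * 0 := by linear_combination uy
  have xv : A ^ 2 * s.dx T * s.dv T + s.dx T * s.dv Z + s.dx Z * s.dv T + s.dx A * s.dv A +
      s.dx B * s.dv B = E * 0 := by linear_combination vx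
  have yv : A ^ 2 * s.dy T * s.dv T + s.dy T * s.dv Z + s.dy Z * s.dv T + s.dy A * s.dv A +
      s.dy B * s.dv B = E * 0 := by linear_combination vy
  have yx : A ^ 2 * s.dy T * s.dx T + s.dy T * s.dx Z + s.dy Z * s.dx T + s.dy A * s.dx A +
      s.dy B * s.dx B = E * 0 := by linear_combination xy
  -- matrices
  let J : Matrix (Fin 4) (Fin 4) R := !![s.du T, s.dv T, s.dx T, s.dy T;
    s.du Z, s.dv Z, s.dx Z, s.dy Z; s.du A, s.dv A, s.dx A, s.dy A;
    s.du B, s.dv B, s.dx B, s.dy B]
  let G : Matrix (Fin 4) (Fin 4) R := !![s.H, 1, 0, 0; 1, 0, 0, 0; 0, 0, 1, 0; 0, 0, 0, 1]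
  let Gi : Matrix (Fin 4) (Fin 4) R := !![0, 1, 0, 0; 1, -s.H, 0, 0; 0, 0, 1, 0; 0, 0, 0, 1]
  let Gh : Matrix (Fin 4) (Fin 4) R := !![A ^ 2, 1, 0, 0; 1, 0, 0, 0; 0, 0, 1, 0; 0, 0, 0, 1]
  let Ghi : Matrix (Fin 4) (Fin 4) R := !![0, 1, 0, 0; 1, -A ^ 2, 0, 0; 0, 0, 1, 0; 0, 0, 0, 1]
  have hJ : J.transpose * Gh * J = E • G := by
    ext i j
    fin_cases i <;> fin_cases j <;>
      simp [J, G, Gh, Matrix.mul_apply, Fin.sum_univ_four]
    · linear_combination uu
    · linear_combination uv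
    · linear_combination ux
    · linear_combination uy
    · linear_combination vu
    · linear_combination vv
    · linear_combination vx
    · linear_combination vy
    · linear_combination xu
    · linear_combination xv
    · linear_combination xx
    · linear_combination xy
    · linear_combination yu
    · linear_combination yv
    · linear_combination yx
    · linear_combination yy
  have hG : Gi * G = 1 := by
    ext i j
    fin_cases i <;> fin_cases j <;>
      simp [G, Gi, Matrix.mul_apply, Fin.sum_univ_four]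
  have hGh : Gh * Ghi = 1 := by
    ext i j
    fin_cases i <;> fin_cases j <;>
      simp [Gh, Ghi, Matrix.mul_apply, Fin.sum_univ_four]
  have hN : (F • (Gi * J.transpose * Gh)) * J = 1 := by
    rw [Matrix.smul_mul, Matrix.mul_assoc Gi, Matrix.mul_assoc Gi, hJ, Matrix.mul_smul, hG,
      smul_smul, mul_comm F E, hEF, one_smul]
  have hN' := mul_eq_one_comm.1 hN
  have hK : F • (J * Gi * J.transpose) = Ghi := by
    have h1 : (F • (J * Gi * J.transpose)) * Gh = 1 := by
      rw [← hN', Matrix.mul_smul, Matrix.smul_mul]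
      simp only [Matrix.mul_assoc]
    have h2 : (F • (J * Gi * J.transpose)) * (Gh * Ghi) = Ghi := by
      rw [← Matrix.mul_assoc, h1, Matrix.one_mul]
    rwa [hGh, Matrix.mul_one] at h2
  have hen : ∀ i j, (J * Gi * J.transpose) i j =
      J i 1 * J j 0 + (J i 0 - s.H * J i 1) * J j 1 + J i 2 * J j 2 + J i 3 * J j 3 := by
    intro i j
    have g00 : Gi 0 0 = 0 := rfl
    have g01 : Gi 0 1 = 1 := rfl
    have g02 : Gi 0 2 = 0 := rfl
    have g03 : Gi 0 3 = 0 := rfl
    have g10 : Gi 1 0 = 1 := rfl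
    have g11 : Gi 1 1 = -s.H := rfl
    have g12 : Gi 1 2 = 0 := rfl
    have g13 : Gi 1 3 = 0 := rfl
    have g20 : Gi 2 0 = 0 := rfl
    have g21 : Gi 2 1 = 0 := rfl
    have g22 : Gi 2 2 = 1 := rfl
    have g23 : Gi 2 3 = 0 := rfl
    have g30 : Gi 3 0 = 0 := rfl
    have g31 : Gi 3 1 = 0 := rfl
    have g32 : Gi 3 2 = 0 := rfl
    have g33 : Gi 3 3 = 1 := rfl
    simp only [Matrix.mul_apply, Matrix.transpose_apply, Fin.sum_univ_four, g00, g01, g02, g03,
      g10, g11, g12, g13, g20, g21, g22, g23, g30, g31, g32, g33]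
    ring
  have kT' : F * (s.dv T * s.du T + (s.du T - s.H * s.dv T) * s.dv T + s.dx T * s.dx T +
      s.dy T * s.dy T) = 0 := by
    have := congrFun (congrFun hK 0) 0
    rw [Matrix.smul_apply, hen, smul_eq_mul] at this
    exact this
  have kZ' : F * (s.dv Z * s.du T + (s.du Z - s.H * s.dv Z) * s.dv T + s.dx Z * s.dx T +
      s.dy Z * s.dy T) = 1 := by
    have := congrFun (congrFun hK 1) 0
    rw [Matrix.smul_apply, hen, smul_eq_mul] at this
    exact this
  have kA' : F * (s.dv A * s.du T + (s.du A - s.H * s.dv A) * s.dv T + s.dx A * s.dx T +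
      s.dy A * s.dy T) = 0 := by
    have := congrFun (congrFun hK 2) 0
    rw [Matrix.smul_apply, hen, smul_eq_mul] at this
    exact this
  have kB' : F * (s.dv B * s.du T + (s.du B - s.H * s.dv B) * s.dv T + s.dx B * s.dx T +
      s.dy B * s.dy T) = 0 := by
    have := congrFun (congrFun hK 3) 0
    rw [Matrix.smul_apply, hen, smul_eq_mul] at this
    exact this
  obtain ⟨a, ha⟩ : ∃ a, a = F * s.dv T := ⟨_, rfl⟩
  obtain ⟨b, hb⟩ : ∃ b, b = F * (s.du T - s.H * s.dv T) := ⟨_, rfl⟩
  obtain ⟨c, hc⟩ : ∃ c, c = F * s.dx T := ⟨_, rfl⟩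
  obtain ⟨d, hd⟩ : ∃ d, d = F * s.dy T := ⟨_, rfl⟩
  have kT : a * s.du T + b * s.dv T + c * s.dx T + d * s.dy T = 0 := by
    rw [ha, hb, hc, hd]; linear_combination kT'
  have kZ : a * s.du Z + b * s.dv Z + c * s.dx Z + d * s.dy Z = 1 := by
    rw [ha, hb, hc, hd]; linear_combination kZ'
  have kA : a * s.du A + b * s.dv A + c * s.dx A + d * s.dy A = 0 := by
    rw [ha, hb, hc, hd]; linear_combination kA'
  have kB : a * s.du B + b * s.dv B + c * s.dx B + d * s.dy B = 0 := by
    rw [ha, hb, hc, hd]; linear_combination kB'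
  have nul : s.H * a ^ 2 + 2 * a * b + c ^ 2 + d ^ 2 = 0 := by
    rw [ha, hb, hc, hd]
    rw [ha, hb, hc, hd] at kT
    linear_combination F * kT
  obtain ⟨l, hl⟩ : ∃ l, l = -(F * (a * s.du E + b * s.dv E + c * s.dx E + d * s.dy E)) := ⟨_, rfl⟩
  have r0 : ∀ (D : Derivation ℤ R R) (f : R), D (D f) = D (D f) := fun _ _ => rfl
  have euu := ckf4 s.du s.dv s.dx s.dy s.du s.du (r0 _) (fun f => (s.vu f).symm)
    (fun f => (s.xu f).symm) (fun f => (s.yu f).symm) (r0 _) (fun f => (s.vu f).symm)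
    (fun f => (s.xu f).symm) (fun f => (s.yu f).symm) uu uu vu xu yu uu uv ux uy kA kB kT kZ
  have euv := ckf4 s.du s.dv s.dx s.dy s.du s.dv (r0 _) (fun f => (s.vu f).symm)
    (fun f => (s.xu f).symm) (fun f => (s.yu f).symm) s.vu (r0 _)
    (fun f => (s.xv f).symm) (fun f => (s.yv f).symm) uv uv vv xv yv uu uv ux uy kA kB kT kZ
  have eux := ckf4 s.du s.dv s.dx s.dy s.du s.dx (r0 _) (fun f => (s.vu f).symm)
    (fun f => (s.xu f).symm) (fun f => (s.yu f).symm) s.xu s.xv (r0 _)
    (fun f => (s.yx f).symm) ux ux vx xx yx uu uv ux uy kA kB kT kZ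
  have euy := ckf4 s.du s.dv s.dx s.dy s.du s.dy (r0 _) (fun f => (s.vu f).symm)
    (fun f => (s.xu f).symm) (fun f => (s.yu f).symm) s.yu s.yv s.yx (r0 _)
    uy uy vy xy yy uu uv ux uy kA kB kT kZ
  have evv := ckf4 s.du s.dv s.dx s.dy s.dv s.dv s.vu (r0 _)
    (fun f => (s.xv f).symm) (fun f => (s.yv f).symm) s.vu (r0 _)
    (fun f => (s.xv f).symm) (fun f => (s.yv f).symm) vv uv vv xv yv vu vv vx vy kA kB kT kZ
  have evx := ckf4 s.du s.dv s.dx s.dy s.dv s.dx s.vu (r0 _)
    (fun f => (s.xv f).symm) (fun f => (s.yv f).symm) s.xu s.xv (r0 _)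
    (fun f => (s.yx f).symm) vx ux vx xx yx vu vv vx vy kA kB kT kZ
  have evy := ckf4 s.du s.dv s.dx s.dy s.dv s.dy s.vu (r0 _)
    (fun f => (s.xv f).symm) (fun f => (s.yv f).symm) s.yu s.yv s.yx (r0 _)
    vy uy vy xy yy vu vv vx vy kA kB kT kZ
  have exx := ckf4 s.du s.dv s.dx s.dy s.dx s.dx s.xu s.xv (r0 _)
    (fun f => (s.yx f).symm) s.xu s.xv (r0 _)
    (fun f => (s.yx f).symm) xx ux vx xx yx xu xv xx xy kA kB kT kZ
  have exy := ckf4 s.du s.dv s.dx s.dy s.dx s.dy s.xu s.xv (r0 _)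
    (fun f => (s.yx f).symm) s.yu s.yv s.yx (r0 _)
    xy uy vy xy yy xu xv xx xy kA kB kT kZ
  have eyy := ckf4 s.du s.dv s.dx s.dy s.dy s.dy s.yu s.yv s.yx (r0 _)
    s.yu s.yv s.yx (r0 _) yy uy vy xy yy yu yv yx yy kA kB kT kZ
  simp only [map_zero, Derivation.map_one_eq_zero, s.Hu, s.Hv, s.Hx, s.Hy,
    mul_zero, mul_one, add_zero, zero_add] at euu euv eux euy evv evx evy exx exy eyy
  have key := s.null (a := a) (b := b) (c := c) (d := d) (l := l) ?_ ?_ ?_ ?_ ?_ ?_ ?_ ?_ ?_ ?_ nul
  · obtain ⟨a0, c0, d0, bu, bv, bx, by'⟩ := key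
    have Tv : s.dv T = 0 := hFc _ (by rw [← ha, a0])
    have Tx : s.dx T = 0 := hFc _ (by rw [← hc, c0])
    have Ty : s.dy T = 0 := hFc _ (by rw [← hd, d0])
    have Tu : s.du T = E * b := by
      rw [hb, Tv]; linear_combination -(s.du T) * hEF
    have bz : b * s.dv Z = 1 := by rw [a0, c0, d0] at kZ; linear_combination kZ
    have hbc : ∀ f : R, b * f = 0 → f = 0 := by
      intro f hf
      have : s.dv Z * (b * f) = 0 := by rw [hf, mul_zero]
      linear_combination this - f * bz
    have Tux : s.dx (s.du T) = 0 := by rw [s.xu, Tx, map_zero]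
    have Tuy : s.dy (s.du T) = 0 := by rw [s.yu, Ty, map_zero]
    have Ex : s.dx E = 0 := by
      apply hbc
      have h1 := congrArg s.dx Tu
      rw [Tux, Derivation.leibniz, bx] at h1
      simp only [smul_eq_mul] at h1
      linear_combination -h1
    have Ey : s.dy E = 0 := by
      apply hbc
      have h1 := congrArg s.dy Tu
      rw [Tuy, Derivation.leibniz, by'] at h1
      simp only [smul_eq_mul] at h1
      linear_combination -h1
    have xx' : s.dx A * s.dx A + s.dx B * s.dx B = E := by rw [Tx] at xx; linear_combination xx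
    have yy' : s.dy A * s.dy A + s.dy B * s.dy B = E := by rw [Ty] at yy; linear_combination yy
    have xy' : s.dx A * s.dy A + s.dx B * s.dy B = 0 := by
      rw [Tx, Ty] at xy; linear_combination xy
    have p1 : s.dx A * s.dx (s.dx A) + s.dx B * s.dx (s.dx B) = 0 := by
      have h1 := congrArg s.dx xx'
      simp only [map_add, Derivation.leibniz, smul_eq_mul, Ex] at h1
      apply s.h2; linear_combination h1
    have p2 : s.dx A * s.dx (s.dy A) + s.dx B * s.dx (s.dy B) = 0 := by
      have h1 := congrArg s.dy xx'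
      simp only [map_add, Derivation.leibniz, smul_eq_mul, Ey, s.yx] at h1
      apply s.h2; linear_combination h1
    have p3 : s.dy A * s.dx (s.dx A) + s.dy B * s.dx (s.dx B) = 0 := by
      have h1 := congrArg s.dx xy'
      simp only [map_add, Derivation.leibniz, smul_eq_mul, map_zero] at h1
      linear_combination h1 - p2
    have hdet : (s.dx A * s.dy B - s.dx B * s.dy A) ^ 2 = E * E := by
      linear_combination (s.dy A * s.dy A + s.dy B * s.dy B) * xx' + E * yy' -
        (s.dx A * s.dy A + s.dx B * s.dy B) * xy'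
    have hdc : ∀ f : R, (s.dx A * s.dy B - s.dx B * s.dy A) * f = 0 → f = 0 := by
      intro f hf
      apply hEc; apply hEc
      have : (s.dx A * s.dy B - s.dx B * s.dy A) ^ 2 * f = 0 := by
        rw [sq, mul_assoc, hf, mul_zero]
      rw [hdet] at this
      linear_combination this
    have Axx : s.dx (s.dx A) = 0 := by
      apply hdc; linear_combination s.dy B * p1 - s.dx B * p3
    have Bxx : s.dx (s.dx B) = 0 := by
      apply hdc; linear_combination s.dx A * p3 - s.dy A * p1
    have Auxx : s.dx (s.dx (s.du A)) = 0 := by rw [s.xu, s.xu, Axx, map_zero]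
    have Buxx : s.dx (s.dx (s.du B)) = 0 := by rw [s.xu, s.xu, Bxx, map_zero]
    have hTc : ∀ f : R, s.du T * f = 0 → f = 0 := by
      intro f hf
      rw [Tu, mul_assoc] at hf
      exact hbc _ (hEc _ hf)
    have z0 : s.du T * s.dx Z + s.du A * s.dx A + s.du B * s.dx B = 0 := by
      rw [Tx] at ux; linear_combination ux
    have z1 := congrArg s.dx z0
    simp only [map_add, Derivation.leibniz, smul_eq_mul, map_zero, Tux, Axx, Bxx, mul_zero,
      zero_add, add_zero] at z1
    have z2 := congrArg s.dx z1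
    simp only [map_add, Derivation.leibniz, smul_eq_mul, map_zero, Tux, Axx, Bxx, Auxx, Buxx,
      mul_zero, zero_add, add_zero] at z2
    have Zxxx : s.dx (s.dx (s.dx Z)) = 0 := hTc _ z2
    have Zuxxx : s.dx (s.dx (s.dx (s.du Z))) = 0 := by rw [s.xu, s.xu, s.xu, Zxxx, map_zero]
    have w0 : A ^ 2 * s.du T ^ 2 + 2 * (s.du T * s.du Z) + s.du A ^ 2 + s.du B ^ 2 = E * s.H := by
      linear_combination uu
    have w1 := congrArg s.dx w0
    simp only [map_add, map_sub, Derivation.leibniz, Derivation.leibniz_pow, smul_eq_mul,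
      nsmul_eq_mul, map_zero, Tux, Ex, s.Hx, D2, mul_zero, zero_add, add_zero, Nat.cast_ofNat,
      Nat.add_one_sub_one, pow_one, mul_one] at w1
    have w2 := congrArg s.dx w1
    simp only [map_add, map_sub, Derivation.leibniz, Derivation.leibniz_pow, smul_eq_mul,
      nsmul_eq_mul, map_zero, Tux, Ex, Axx, Bxx, Auxx, Buxx, s.Xx, s.Yx, D2, D3, mul_zero,
      zero_add, add_zero, sub_zero, Nat.cast_ofNat, Nat.add_one_sub_one, pow_one, mul_one] at w2
    have w3 := congrArg s.dx w2
    simp only [map_add, map_sub, Derivation.leibniz, Derivation.leibniz_pow, smul_eq_mul,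
      nsmul_eq_mul, map_zero, Tux, Ex, Axx, Bxx, Auxx, Buxx, Zuxxx, s.Xx, s.Yx, D2, D3, mul_zero,
      zero_add, add_zero, sub_zero, Nat.cast_ofNat, Nat.add_one_sub_one, pow_one, mul_one,
      zero_mul] at w3
    have hE0 : E = 0 := by
      apply s.h2; apply s.h3
      linear_combination -w3
    rw [hE0, zero_mul] at hEF
    exact zero_ne_one hEF
  · rw [hl]; linear_combination F * euu - (c * (3 * s.X ^ 2 - 3 * s.Y ^ 2) -
      d * (6 * (s.X * s.Y)) + 2 * (s.H * s.du a + s.du b)) * hEF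
  · rw [hl]; linear_combination F * euv - (s.du a + s.H * s.dv a + s.dv b) * hEF
  · apply hEc; linear_combination eux
  · apply hEc; linear_combination euy
  · apply hEc; linear_combination evv
  · apply hEc; linear_combination evx
  · apply hEc; linear_combination evy
  · rw [hl]; linear_combination F * exx - 2 * s.dx c * hEF
  · rw [hl]; linear_combination F * eyy - 2 * s.dy d * hEF
  · apply hEc; linear_combination exy

end Pool.Agent.V11202.PW
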