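import Pool.Agent.V11202.PW.Geo
import Pool.Agent.V11202.PW.Iso
import Pool.Agent.V11202.CK.Main

set_option autoImplicit false
set_option linter.unnecessarySeqFocus false
set_option linter.unusedSimpArgs false
set_option linter.unreachableTactic false
set_option linter.unusedTactic false

open scoped ContDiff Topology
open Filter Pool.Agent.V11202.CK Pool.Agent.V11202.KS

namespace Pool.Agent.V11202.PW

theorem sco (p : Eu 4) (i : Fin 4) : ContDiffAt ℝ ∞ (fun x : Eu 4 => x i) p :=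
  (contDiff_apply ℝ ℝ i).contDiffAt

theorem pd_co (l i : Fin 4) (x : Eu 4) : pd l (fun x : Eu 4 => x i) x = if l = i then 1 else 0 := by
  have h2 : HasFDerivAt (fun v : Eu 4 => v i) (ContinuousLinearMap.proj (R := ℝ)
      (φ := fun _ : Fin 4 => ℝ) i) x := hasFDerivAt_apply i x
  rw [pd, h2.fderiv]
  simp only [ContinuousLinearMap.proj_apply, Pi.single_apply]
  by_cases h : l = i
  · rw [if_pos h.symm, if_pos h]
  · rw [if_neg (fun k => h k.symm), if_neg h]

theorem D_co (p : Eu 4) (l i : Fin 4) : D l (mk _ (sco p i)) = if l = i then 1 else 0 := by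
  rw [D_mk]
  split_ifs with hi
  · rw [mk_one, mk_eq]
    exact Eventually.of_forall fun x => by rw [pd_co, if_pos hi]
  · rw [mk_zero, mk_eq]
    exact Eventually.of_forall fun x => by rw [pd_co, if_neg hi]

theorem SG_real2 {p : Eu 4} (a b : SG p) (h : a ^ 2 + b ^ 2 = 0) : b = 0 := by
  exact SG_real 0 a b (by linear_combination h)

theorem SG_five {p : Eu 4} (a : SG p) (h : 5 * a = 0) : a = 0 := SG_tor 5 (by norm_num) a h

/-- the ring of germs at a point with the coordinate derivations -/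
noncomputable def sp (p : Eu 4) : Setup (SG p) where
  du := D 0
  dv := D 1
  dx := D 2
  dy := D 3
  X := mk _ (sco p 2)
  Y := mk _ (sco p 3)
  vu := fun f => D_comm 1 0 f
  xu := fun f => D_comm 2 0 f
  yu := fun f => D_comm 3 0 f
  xv := fun f => D_comm 2 1 f
  yv := fun f => D_comm 3 1 f
  yx := fun f => D_comm 3 2 f
  h2 := SG_two
  h3 := SG_three
  h5 := SG_five
  hreal := SG_real2
  Xu := by rw [D_co]; rfl
  Xv := by rw [D_co]; rfl
  Xx := by rw [D_co]; rfl
  Xy := by rw [D_co]; rfl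
  Yu := by rw [D_co]; rfl
  Yv := by rw [D_co]; rfl
  Yx := by rw [D_co]; rfl
  Yy := by rw [D_co]; rfl

theorem cda_c {p : Eu 4} (c : ℝ) : ContDiffAt ℝ ∞ (fun _ : Eu 4 => c) p := contDiffAt_const

theorem mk3 {p : Eu 4} : (3 : SG p) = mk (fun _ => (3 : ℝ)) (cda_c 3) := rfl
theorem mk2 {p : Eu 4} : (2 : SG p) = mk (fun _ => (2 : ℝ)) (cda_c 2) := rfl
theorem mk6 {p : Eu 4} : (6 : SG p) = mk (fun _ => (6 : ℝ)) (cda_c 6) := rfl
theorem mk_neg {p : Eu 4} {F : Eu 4 → ℝ} (hF : ContDiffAt ℝ ∞ F p) :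
    -mk F hF = mk (-F) hF.neg := rfl
theorem mk_sub {p : Eu 4} {F G : Eu 4 → ℝ} (hF : ContDiffAt ℝ ∞ F p) (hG : ContDiffAt ℝ ∞ G p) :
    mk F hF - mk G hG = mk (F - G) (hF.sub hG) := rfl

/-- the almost Einstein equation in components -/
theorem ae_comp {σ : Eu 4 → ℝ} (h : IsAE gw σ) (x : Eu 4) (i j : Fin 4) :
    pd i (pd j σ) x - ∑ k, gmw k i j x * pd k σ x = pd 2 (pd 2 σ) x * gw x i j := by
  obtain ⟨ρ, hρ⟩ := h.eq x
  have h1 := hρ i j
  have h2 := hρ 2 2
  simp only [Hes, Sn_gw, Gam_gw, zero_mul, add_zero, Fin.sum_univ_four] at h1 h2 ⊢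
  have e : gw x 2 2 = 1 := by simp [gw]
  have g0 : ∀ k, gmw k 2 2 x = 0 := by
    intro k; fin_cases k <;> simp [gmw, m2, mo]
  rw [e] at h2
  simp only [g0] at h2
  rw [h1]
  linear_combination -(gw x i j) * h2

theorem ae_local {σ : Eu 4 → ℝ} (h : IsAE gw σ) (p : Eu 4) :
    pd 1 σ p = 0 ∧ pd 2 σ p = 0 ∧ pd 3 σ p = 0 ∧ pd 0 (pd 0 σ) p = 0 := by
  have hs : ContDiffAt ℝ ∞ σ p := h.smooth.contDiffAt
  have C := fun x i j => ae_comp h x i j
  have vv : D 1 (D 1 (mk σ hs)) = 0 := by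
    rw [D_mk, D_mk, mk_zero, mk_eq]
    refine Eventually.of_forall fun x => ?_
    have := C x 1 1
    simpa [gmw, gw, Fin.sum_univ_four, m2, mo] using this
  have vx : D 1 (D 2 (mk σ hs)) = 0 := by
    rw [D_mk, D_mk, mk_zero, mk_eq]
    refine Eventually.of_forall fun x => ?_
    have := C x 1 2
    simpa [gmw, gw, Fin.sum_univ_four, m2, mo] using this
  have vy : D 1 (D 3 (mk σ hs)) = 0 := by
    rw [D_mk, D_mk, mk_zero, mk_eq]
    refine Eventually.of_forall fun x => ?_
    have := C x 1 3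
    simpa [gmw, gw, Fin.sum_univ_four, m2, mo] using this
  have uv : D 0 (D 1 (mk σ hs)) = D 2 (D 2 (mk σ hs)) := by
    rw [D_mk, D_mk, D_mk, D_mk, mk_eq]
    refine Eventually.of_forall fun x => ?_
    have := C x 0 1
    simpa [gmw, gw, Fin.sum_univ_four, m2, mo] using this
  have yy : D 3 (D 3 (mk σ hs)) = D 2 (D 2 (mk σ hs)) := by
    rw [D_mk, D_mk, D_mk, D_mk, mk_eq]
    refine Eventually.of_forall fun x => ?_
    have := C x 3 3
    simpa [gmw, gw, Fin.sum_univ_four, m2, mo] using this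
  have xy : D 2 (D 3 (mk σ hs)) = 0 := by
    rw [D_mk, D_mk, mk_zero, mk_eq]
    refine Eventually.of_forall fun x => ?_
    have := C x 2 3
    simpa [gmw, gw, Fin.sum_univ_four, m2, mo] using this
  have ux : 2 * D 0 (D 2 (mk σ hs)) =
      (3 * (mk _ (sco p 2)) ^ 2 - 3 * (mk _ (sco p 3)) ^ 2) * D 1 (mk σ hs) := by
    simp only [D_mk, mk_pow, mk3, mk2, mk_mul, mk_sub]
    rw [mk_eq]
    refine Eventually.of_forall fun x => ?_
    have := C x 0 2
    simp [gmw, gw, Fin.sum_univ_four, m2, mo] at this ⊢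
    linear_combination 2 * this
  have uy : 2 * D 0 (D 3 (mk σ hs)) =
      - (6 * (mk _ (sco p 2) * mk _ (sco p 3))) * D 1 (mk σ hs) := by
    simp only [D_mk, mk_pow, mk3, mk2, mk6, mk_mul, mk_sub, mk_neg]
    rw [mk_eq]
    refine Eventually.of_forall fun x => ?_
    have := C x 0 3
    simp [gmw, gw, Fin.sum_univ_four, m2, mo] at this ⊢
    linear_combination 2 * this
  have uu : 2 * D 0 (D 0 (mk σ hs)) + (3 * (mk _ (sco p 2)) ^ 2 - 3 * (mk _ (sco p 3)) ^ 2) *
      D 2 (mk σ hs) - (6 * (mk _ (sco p 2) * mk _ (sco p 3))) * D 3 (mk σ hs) =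
      2 * D 2 (D 2 (mk σ hs)) * (mk _ (sco p 2) ^ 3 - 3 * (mk _ (sco p 2) *
        mk _ (sco p 3) ^ 2)) := by
    simp only [D_mk, mk_pow, mk3, mk2, mk6, mk_mul, mk_sub, mk_neg, mk_add]
    rw [mk_eq]
    refine Eventually.of_forall fun x => ?_
    have := C x 0 0
    simp [gmw, gw, Fin.sum_univ_four, m2, mo] at this ⊢
    linear_combination 2 * this
  obtain ⟨k1, k2, k3, k4⟩ := (sp p).ae (σ := mk σ hs) (ρ := D 2 (D 2 (mk σ hs)))
    vv vx vy uv rfl yy xy ux uy uu
  have t : ∀ {F : Eu 4 → ℝ} {hF : ContDiffAt ℝ ∞ F p}, mk F hF = 0 → F p = 0 := by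
    intro F hF e
    rw [mk_zero, mk_eq] at e
    exact e.self_of_nhds
  have k1' : D 1 (mk σ hs) = 0 := k1
  have k2' : D 2 (mk σ hs) = 0 := k2
  have k3' : D 3 (mk σ hs) = 0 := k3
  have k4' : D 0 (D 0 (mk σ hs)) = 0 := k4
  rw [D_mk] at k1' k2' k3' k4'
  rw [D_mk] at k4'
  exact ⟨t k1', t k2', t k3', t k4'⟩

theorem fderiv_zero_of_pd {f : Eu 4 → ℝ} {x : Eu 4} (h : ∀ i, pd i f x = 0) : fderiv ℝ f x = 0 := by
  ext v
  have hv : v = ∑ i, v i • (Pi.single i (1 : ℝ) : Eu 4) := by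
    funext j
    simp [Finset.sum_apply, Pi.single_apply]
  rw [hv, map_sum]
  simp only [map_smul]
  apply Finset.sum_eq_zero
  intro i _
  have : fderiv ℝ f x (Pi.single i 1) = 0 := h i
  rw [this, smul_zero]

theorem ae_iff (σ : Eu 4 → ℝ) : IsAE gw σ ↔ ∃ a b : ℝ, ∀ x, σ x = a + b * x 0 := by
  constructor
  · intro h
    have hl := fun p => ae_local h p
    have hd : Differentiable ℝ σ := h.smooth.differentiable (by simp)
    have hs0 : ContDiff ℝ ∞ (pd 0 σ) :=
      contDiff_iff_contDiffAt.2 fun x => cda_pd h.smooth.contDiffAt 0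
    have hd0 : Differentiable ℝ (pd 0 σ) := hs0.differentiable (by simp)
    have c0 : ∀ x i, pd i (pd 0 σ) x = 0 := by
      intro x i
      have hc := (pd_comm (h.smooth.contDiffAt (x := x)) i 0).self_of_nhds
      have hz : ∀ (i : Fin 4), (∀ y, pd i σ y = 0) → pd 0 (pd i σ) x = 0 := by
        intro i hi
        have : pd i σ = fun _ => 0 := funext hi
        rw [this, pd_c]
      fin_cases i
      · exact (hl x).2.2.2
      · exact hc.trans (hz 1 fun y => (hl y).1)
      · exact hc.trans (hz 2 fun y => (hl y).2.1)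
      · exact hc.trans (hz 3 fun y => (hl y).2.2.1)
    obtain ⟨b, hb⟩ : ∃ b, ∀ x, pd 0 σ x = b := by
      refine ⟨pd 0 σ 0, fun x => ?_⟩
      exact is_const_of_fderiv_eq_zero hd0 (fun x => fderiv_zero_of_pd (c0 x)) x 0
    have hd2 : Differentiable ℝ (fun x : Eu 4 => σ x - mo b 0 0 x * x 0) := by
      intro x
      exact (hd x).sub ((dif_mo b 0 0 x).mul ((sco x 0).differentiableAt (by simp)))
    have hc2 : ∀ x, fderiv ℝ (fun x : Eu 4 => σ x - mo b 0 0 x * x 0) x = 0 := by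
      intro x
      apply fderiv_zero_of_pd
      intro i
      have hco : Differentiable ℝ (fun x : Eu 4 => x 0) :=
        fun x => (sco x 0).differentiableAt (by simp)
      have hm : Differentiable ℝ (fun x : Eu 4 => mo b 0 0 x * x 0) := (dif_mo b 0 0).mul hco
      rw [pd_sub' hd hm, pd_mul' (dif_mo b 0 0) hco, pd_mo, pd_co]
      fin_cases i
      · simp [hb, mo]
      · simp [(hl x).1]
      · simp [(hl x).2.1]
      · simp [(hl x).2.2.1]
    refine ⟨σ 0, b, fun x => ?_⟩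
    have := is_const_of_fderiv_eq_zero hd2 hc2 x 0
    simp [mo] at this
    linear_combination this
  · rintro ⟨a, b, h⟩
    have e : σ = fun x => a + b * x 0 := funext h
    have hp : ∀ l, pd l σ = fun _ => if l = 0 then b else 0 := by
      intro l
      funext x
      have hco : Differentiable ℝ (fun x : Eu 4 => x 0) :=
        fun x => (sco x 0).differentiableAt (by simp)
      have hm : Differentiable ℝ (fun x : Eu 4 => b * x 0) := (differentiable_const b).mul hco
      rw [e, pd_add' (differentiable_const a) hm,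
        pd_mul' (differentiable_const b) hco, pd_c, pd_c, pd_co]
      split_ifs <;> ring
    refine ⟨?_, fun x => ⟨0, fun i j => ?_⟩⟩
    · rw [e]
      exact contDiff_const.add (contDiff_const.mul (contDiff_apply ℝ ℝ (0 : Fin 4)))
    · simp only [Hes, Sn_gw, Gam_gw, hp, pd_c, Fin.sum_univ_four]
      fin_cases i <;> fin_cases j <;> simp [gmw, m2, mo]

end Pool.Agent.V11202.PW
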