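import Pool.Agent.V11202.CK.Core

set_option autoImplicit false
set_option linter.unusedSimpArgs false
set_option linter.unusedVariables false

namespace Pool.Agent.V11202.PW

open Pool.Agent.V11202.CK

/-- a ring with four commuting derivations, and coordinates `X`, `Y` of the last two -/
structure Setup (R : Type*) [CommRing R] where
  du : Derivation ℤ R R
  dv : Derivation ℤ R R
  dx : Derivation ℤ R R
  dy : Derivation ℤ R R
  X : R
  Y : R
  vu : ∀ f, dv (du f) = du (dv f)
  xu : ∀ f, dx (du f) = du (dx f)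
  yu : ∀ f, dy (du f) = du (dy f)
  xv : ∀ f, dx (dv f) = dv (dx f)
  yv : ∀ f, dy (dv f) = dv (dy f)
  yx : ∀ f, dy (dx f) = dx (dy f)
  h2 : ∀ f : R, 2 * f = 0 → f = 0
  h3 : ∀ f : R, 3 * f = 0 → f = 0
  h5 : ∀ f : R, 5 * f = 0 → f = 0
  hreal : ∀ a b : R, a ^ 2 + b ^ 2 = 0 → b = 0
  Xu : du X = 0
  Xv : dv X = 0
  Xx : dx X = 1
  Xy : dy X = 0
  Yu : du Y = 0
  Yv : dv Y = 0
  Yx : dx Y = 0
  Yy : dy Y = 1

variable {R : Type*} [CommRing R] (s : Setup R)

/-- `H = x³ - 3 x y²` -/
def Setup.H : R := s.X ^ 3 - 3 * (s.X * s.Y ^ 2)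

theorem Setup.Hu : s.du s.H = 0 := by
  simp only [Setup.H, map_sub, Derivation.leibniz, Derivation.leibniz_pow, smul_eq_mul,
    nsmul_eq_mul, s.Xu, s.Yu, D3, mul_zero, add_zero, sub_zero]
theorem Setup.Hv : s.dv s.H = 0 := by
  simp only [Setup.H, map_sub, Derivation.leibniz, Derivation.leibniz_pow, smul_eq_mul,
    nsmul_eq_mul, s.Xv, s.Yv, D3, mul_zero, add_zero, sub_zero]
theorem Setup.Hx : s.dx s.H = 3 * s.X ^ 2 - 3 * s.Y ^ 2 := by
  simp only [Setup.H, map_sub, Derivation.leibniz, Derivation.leibniz_pow, smul_eq_mul,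
    nsmul_eq_mul, s.Xx, s.Yx, D3, mul_zero, add_zero, sub_zero, Nat.cast_ofNat,
    Nat.add_one_sub_one]
  ring
theorem Setup.Hy : s.dy s.H = - (6 * (s.X * s.Y)) := by
  simp only [Setup.H, map_sub, Derivation.leibniz, Derivation.leibniz_pow, smul_eq_mul,
    nsmul_eq_mul, s.Xy, s.Yy, D3, mul_zero, add_zero, sub_zero, Nat.cast_ofNat,
    Nat.add_one_sub_one]
  ring

/-- almost Einstein scales of the Ricci-flat metric `2 du dv + H du² + dx² + dy²` -/
theorem Setup.ae {σ ρ : R}
    (vv : s.dv (s.dv σ) = 0) (vx : s.dv (s.dx σ) = 0) (vy : s.dv (s.dy σ) = 0)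
    (uv : s.du (s.dv σ) = ρ) (xx : s.dx (s.dx σ) = ρ) (yy : s.dy (s.dy σ) = ρ)
    (xy : s.dx (s.dy σ) = 0)
    (ux : 2 * s.du (s.dx σ) = (3 * s.X ^ 2 - 3 * s.Y ^ 2) * s.dv σ)
    (uy : 2 * s.du (s.dy σ) = - (6 * (s.X * s.Y)) * s.dv σ)
    (uu : 2 * s.du (s.du σ) + (3 * s.X ^ 2 - 3 * s.Y ^ 2) * s.dx σ -
      (6 * (s.X * s.Y)) * s.dy σ = 2 * ρ * s.H) :
    s.dv σ = 0 ∧ s.dx σ = 0 ∧ s.dy σ = 0 ∧ s.du (s.du σ) = 0 := by
  have ρx : s.dx ρ = 0 := by rw [← uv, s.xu, s.xv, vx, map_zero]
  have ρux : s.dx (s.du ρ) = 0 := by rw [s.xu, ρx, map_zero]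
  have p1 := congrArg s.dx ux
  simp only [map_sub, Derivation.leibniz, Derivation.leibniz_pow, smul_eq_mul, nsmul_eq_mul,
    s.Xx, s.Yx, D2, D3, s.xu, s.xv, vx, xx, Nat.cast_ofNat, Nat.add_one_sub_one, mul_zero,
    add_zero, zero_add, sub_zero, mul_one, pow_one] at p1
  have p2 := congrArg s.dx p1
  simp only [map_sub, Derivation.leibniz, Derivation.leibniz_pow, smul_eq_mul, nsmul_eq_mul,
    s.Xx, s.Yx, D2, D3, s.xu, s.xv, vx, xx, ρx, map_zero, Nat.cast_ofNat, Nat.add_one_sub_one,
    mul_zero, add_zero, zero_add, sub_zero, mul_one, pow_one] at p2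
  have A0 : s.dv σ = 0 := by
    apply s.h2; apply s.h3; linear_combination -p2
  have ρ0 : ρ = 0 := by rw [← uv, A0, map_zero]
  have ux' : s.du (s.dx σ) = 0 := by apply s.h2; rw [ux, A0, mul_zero]
  have uy' : s.du (s.dy σ) = 0 := by apply s.h2; rw [uy, A0, mul_zero]
  subst ρ0
  have q1 := congrArg s.dx uu
  simp only [map_sub, map_add, Derivation.leibniz, Derivation.leibniz_pow, smul_eq_mul,
    nsmul_eq_mul, s.Xx, s.Yx, D2, D3, D6, s.xu, s.xv, ux', xx, xy, map_zero, Nat.cast_ofNat,
    Nat.add_one_sub_one, mul_zero, zero_mul, add_zero, zero_add, sub_zero, mul_one, pow_one] at q1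
  have q2 := congrArg s.dx q1
  simp only [map_sub, map_add, Derivation.leibniz, Derivation.leibniz_pow, smul_eq_mul,
    nsmul_eq_mul, s.Xx, s.Yx, D2, D3, D6, s.xu, s.xv, ux', xx, xy, map_zero, Nat.cast_ofNat,
    Nat.add_one_sub_one, mul_zero, zero_mul, add_zero, zero_add, sub_zero, mul_one, pow_one] at q2
  have x0 : s.dx σ = 0 := by apply s.h2; apply s.h3; linear_combination q2
  rw [x0] at q1
  have q3 := congrArg s.dy q1
  simp only [map_sub, map_add, Derivation.leibniz, Derivation.leibniz_pow, smul_eq_mul,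
    nsmul_eq_mul, s.Xy, s.Yy, D2, D3, D6, yy, map_zero, Nat.cast_ofNat,
    Nat.add_one_sub_one, mul_zero, zero_mul, add_zero, zero_add, sub_zero, mul_one, pow_one] at q3
  have y0 : s.dy σ = 0 := by apply s.h2; apply s.h3; linear_combination -q3
  refine ⟨A0, x0, y0, ?_⟩
  apply s.h2
  rw [x0, y0] at uu
  linear_combination uu

/-- null conformal Killing fields are multiples of `∂_v` -/
theorem Setup.null {a b c d l : R}
    (uu : c * (3 * s.X ^ 2 - 3 * s.Y ^ 2) - d * (6 * (s.X * s.Y)) +
      2 * (s.H * s.du a + s.du b) = l * s.H)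
    (uv : s.du a + s.H * s.dv a + s.dv b = l)
    (ux : s.du c + s.H * s.dx a + s.dx b = 0)
    (uy : s.du d + s.H * s.dy a + s.dy b = 0)
    (vv : 2 * s.dv a = 0) (vx : s.dx a + s.dv c = 0) (vy : s.dy a + s.dv d = 0)
    (xx : 2 * s.dx c = l) (yy : 2 * s.dy d = l) (xy : s.dy c + s.dx d = 0)
    (nul : s.H * a ^ 2 + 2 * a * b + c ^ 2 + d ^ 2 = 0) :
    a = 0 ∧ c = 0 ∧ d = 0 ∧ s.du b = 0 ∧ s.dv b = 0 ∧ s.dx b = 0 ∧ s.dy b = 0 := by
  have av : s.dv a = 0 := s.h2 _ vv
  have cv : s.dv c = - s.dx a := by linear_combination vx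
  have dv' : s.dv d = - s.dy a := by linear_combination vy
  have avx : s.dv (s.dx a) = 0 := by rw [← s.xv, av, map_zero]
  have avy : s.dv (s.dy a) = 0 := by rw [← s.yv, av, map_zero]
  have avu : s.dv (s.du a) = 0 := by rw [s.vu, av, map_zero]
  have bv : s.dv b = l - s.du a := by linear_combination uv - s.H * av
  have bx : s.dx b = - s.du c - s.H * s.dx a := by linear_combination ux
  have by' : s.dy b = - s.du d - s.H * s.dy a := by linear_combination uy
  -- derivatives of l
  have lv1 : s.dv l = - (2 * s.dx (s.dx a)) := by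
    rw [← xx, Derivation.leibniz, D2]
    simp only [smul_eq_mul, mul_zero, add_zero]
    rw [← s.xv, cv, map_neg]; ring
  have lv2 : s.dv l = - (2 * s.dy (s.dy a)) := by
    rw [← yy, Derivation.leibniz, D2]
    simp only [smul_eq_mul, mul_zero, add_zero]
    rw [← s.yv, dv', map_neg]; ring
  have axy : s.dx (s.dy a) = 0 := by
    have p := congrArg s.dv xy
    rw [map_add, ← s.yv, ← s.xv, cv, dv', map_neg, map_neg, map_zero, s.yx] at p
    apply s.h2; linear_combination -p
  have lx : s.dx l = 2 * s.du (s.dx a) := by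
    have p := congrArg s.dx bv
    have q := congrArg s.dv bx
    rw [s.xv, q] at p
    simp only [map_sub, map_neg, Derivation.leibniz, smul_eq_mul, s.Hv, avx, s.vu, cv, mul_zero,
      add_zero, sub_zero, s.xu] at p
    linear_combination -p
  have ly : s.dy l = 2 * s.du (s.dy a) := by
    have p := congrArg s.dy bv
    have q := congrArg s.dv by'
    rw [s.yv, q] at p
    simp only [map_sub, map_neg, Derivation.leibniz, smul_eq_mul, s.Hv, avy, s.vu, dv', mul_zero,
      add_zero, sub_zero, s.yu] at p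
    linear_combination -p
  have axx : s.dx (s.dx a) = s.dy (s.dy a) := by
    apply sub_eq_zero.1; apply s.h2; linear_combination lv1 - lv2
  have axxx : s.dx (s.dx (s.dx a)) = 0 := by
    rw [axx, ← s.yx, axy, map_zero]
  -- key relation
  have key : 2 * (s.du l - s.du (s.du a)) = s.dv l * s.H + s.dx a * (3 * s.X ^ 2 - 3 * s.Y ^ 2) -
      s.dy a * (6 * (s.X * s.Y)) := by
    have p := congrArg s.dv uu
    have q := congrArg s.du bv
    simp only [map_sub, map_add, Derivation.leibniz, Derivation.leibniz_pow, smul_eq_mul,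
      nsmul_eq_mul, s.Xv, s.Yv, s.Hv, D2, D3, D6, s.vu, av, cv, dv', map_zero, mul_zero,
      add_zero, zero_add, sub_zero] at p
    rw [map_sub] at q
    linear_combination p - 2 * q
  have lap : s.du (s.dx (s.dx a)) = 0 := by
    -- `l_xx + l_yy = 0`
    have p1 : s.dx (s.dx l) = 2 * s.du (s.dx (s.dx a)) := by
      rw [lx, Derivation.leibniz, D2, s.xu]; simp
    have p2 : s.dy (s.dy l) = 2 * s.du (s.dy (s.dy a)) := by
      rw [ly, Derivation.leibniz, D2, s.yu]; simp
    have p3 : s.dx (s.dx l) = 2 * s.dx (s.dx (s.dy d)) := by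
      rw [← yy, Derivation.leibniz, D2]; simp [Derivation.leibniz, D2]
    have p4 : s.dy (s.dy l) = 2 * s.dy (s.dy (s.dx c)) := by
      rw [← xx, Derivation.leibniz, D2]; simp [Derivation.leibniz, D2]
    have p5 : s.dx (s.dx (s.dy d)) = - s.dx (s.dy (s.dy c)) := by
      have : s.dx d = - s.dy c := by linear_combination xy
      rw [← s.yx, this, map_neg, map_neg]
    have p6 : s.dy (s.dy (s.dx c)) = s.dx (s.dy (s.dy c)) := by rw [s.yx, s.yx]
    apply s.h2; apply s.h2
    rw [axx] at p1 ⊢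
    linear_combination -p1 - p2 + p3 + p4 + 2 * p5 + 2 * p6
  have key1 : 2 * s.du (s.du (s.dx a)) = -(s.dx (s.dx a)) * (3 * s.X ^ 2 - 3 * s.Y ^ 2) +
      s.dx a * (6 * s.X) - s.dy a * (6 * s.Y) := by
    have p := congrArg s.dx key
    simp only [map_sub, map_add, Derivation.leibniz, Derivation.leibniz_pow, smul_eq_mul,
      nsmul_eq_mul, s.Xx, s.Yx, s.Hx, D2, D3, D6, s.xu, lx, lv1, map_neg, axxx, axy, map_zero,
      mul_zero, add_zero, zero_add, sub_zero, Nat.cast_ofNat, Nat.add_one_sub_one, mul_one,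
      pow_one, neg_zero] at p
    linear_combination p
  have key2 := congrArg s.dx key1
  simp only [map_sub, map_add, map_neg, Derivation.leibniz, Derivation.leibniz_pow, smul_eq_mul,
    nsmul_eq_mul, s.Xx, s.Yx, D2, D3, D6, s.xu, lap, axxx, axy, map_zero, mul_zero, neg_zero,
    add_zero, zero_add, sub_zero, Nat.cast_ofNat, Nat.add_one_sub_one, mul_one, pow_one] at key2
  have ax : s.dx a = 0 := by apply s.h2; apply s.h3; linear_combination -key2
  have axx0 : s.dx (s.dx a) = 0 := by rw [ax, map_zero]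
  have ayy0 : s.dy (s.dy a) = 0 := by rw [← axx, axx0]
  have ay : s.dy a = 0 := by
    rw [axx0, ax, map_zero, map_zero] at key1
    have p := congrArg s.dy key1
    simp only [map_sub, map_add, map_neg, Derivation.leibniz, Derivation.leibniz_pow, smul_eq_mul,
      nsmul_eq_mul, s.Xy, s.Yy, D2, D3, D6, ayy0, map_zero, mul_zero, neg_zero, zero_mul,
      add_zero, zero_add, sub_zero, Nat.cast_ofNat, Nat.add_one_sub_one, mul_one, pow_one,
      zero_sub] at p
    apply s.h2; apply s.h3; linear_combination p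
  have lv : s.dv l = 0 := by rw [lv1, axx0, mul_zero, neg_zero]
  have lx0 : s.dx l = 0 := by rw [lx, ax, map_zero, mul_zero]
  have ly0 : s.dy l = 0 := by rw [ly, ay, map_zero, mul_zero]
  have lu : s.du l = s.du (s.du a) := by
    apply sub_eq_zero.1; apply s.h2
    rw [key, lv, ax, ay]; ring
  have dxc2 : s.dx (s.dx c) = 0 := by
    apply s.h2
    have := congrArg s.dx xx
    rw [Derivation.leibniz, D2, lx0] at this
    simpa using this
  have dxcy : s.dx (s.dy c) = 0 := by
    apply s.h2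
    have := congrArg s.dy xx
    rw [Derivation.leibniz, D2, ly0, s.yx] at this
    simpa using this
  have dxd : s.dx d = - s.dy c := by linear_combination xy
  have dyd : s.dy d = s.dx c := by
    apply sub_eq_zero.1; apply s.h2; linear_combination yy - xx
  have cyy : s.dy (s.dy c) = 0 := by
    have h1 : s.dx (s.dy d) = - s.dy (s.dy c) := by rw [← s.yx, dxd, map_neg]
    rw [dyd, dxc2] at h1
    linear_combination h1
  have aux : s.du (s.dx a) = 0 := by rw [ax, map_zero]
  have auy : s.du (s.dy a) = 0 := by rw [ay, map_zero]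
  -- b_u differentiated in x
  have e1 : (s.dx c - l) * (3 * s.X ^ 2 - 3 * s.Y ^ 2) + c * (6 * s.X) + s.dy c * (6 * (s.X * s.Y))
      - d * (6 * s.Y) + 2 * ((3 * s.X ^ 2 - 3 * s.Y ^ 2) * s.du a - s.du (s.du c)) = 0 := by
    have p := congrArg s.dx uu
    have q : s.dx (s.du b) = - s.du (s.du c) := by
      rw [s.xu, bx, ax]; simp
    simp only [map_sub, map_add, map_neg, Derivation.leibniz, Derivation.leibniz_pow, smul_eq_mul,
      nsmul_eq_mul, s.Xx, s.Yx, s.Hx, D2, D3, D6, q, s.xu a, aux, lx0, dxd, map_zero, mul_zero,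
      neg_zero, zero_mul, add_zero, zero_add, sub_zero, Nat.cast_ofNat, Nat.add_one_sub_one,
      mul_one, pow_one] at p
    linear_combination p
  have e2 : s.du (s.du l) + 6 * (s.X * l) = 6 * c + 12 * (s.Y * s.dy c) + 12 * (s.X * s.du a) +
      12 * (s.X * s.dx c) := by
    have p := congrArg s.dx e1
    have q : s.dx (s.du (s.du c)) = s.du (s.du (s.dx c)) := by rw [s.xu, s.xu]
    have r : 2 * s.du (s.du (s.dx c)) = s.du (s.du l) := by
      rw [← xx]; simp [Derivation.leibniz, D2]
    simp only [map_sub, map_add, map_neg, Derivation.leibniz, Derivation.leibniz_pow, smul_eq_mul,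
      nsmul_eq_mul, s.Xx, s.Yx, D2, D3, D6, q, s.xu a, aux, lx0, dxd, dxc2, dxcy, map_zero, mul_zero,
      neg_zero, zero_mul, add_zero, zero_add, sub_zero, Nat.cast_ofNat, Nat.add_one_sub_one,
      mul_one, pow_one] at p
    linear_combination -p - r
  have e3 : s.du (s.du l) = 6 * c + 12 * (s.Y * s.dy c) + 12 * (s.X * s.du a) := by
    linear_combination e2 + 6 * s.X * xx
  have luux : s.dx (s.du (s.du l)) = 0 := by rw [s.xu, s.xu, lx0, map_zero, map_zero]
  have luuy : s.dy (s.du (s.du l)) = 0 := by rw [s.yu, s.yu, ly0, map_zero, map_zero]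
  have c1 : s.dx c = - (2 * s.du a) := by
    have p := congrArg s.dx e3
    simp only [map_sub, map_add, map_neg, Derivation.leibniz, Derivation.leibniz_pow, smul_eq_mul,
      nsmul_eq_mul, s.Xx, s.Yx, D2, D3, D6, D12, luux, s.xu a, aux, dxcy, map_zero, mul_zero,
      neg_zero, zero_mul, add_zero, zero_add, sub_zero, Nat.cast_ofNat, Nat.add_one_sub_one,
      mul_one, pow_one] at p
    have q : s.dx c + 2 * s.du a = 0 := by apply s.h2; apply s.h3; linear_combination -p
    linear_combination q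
  have c2 : s.dy c = 0 := by
    have p := congrArg s.dy e3
    simp only [map_sub, map_add, map_neg, Derivation.leibniz, Derivation.leibniz_pow, smul_eq_mul,
      nsmul_eq_mul, s.Xy, s.Yy, D2, D3, D6, D12, luuy, s.yu a, auy, cyy, map_zero, mul_zero,
      neg_zero, zero_mul, add_zero, zero_add, sub_zero, Nat.cast_ofNat, Nat.add_one_sub_one,
      mul_one, pow_one] at p
    apply s.h2; apply s.h3; apply s.h3; linear_combination -p
  have l1 : l = - (4 * s.du a) := by rw [← xx, c1]; ring
  have auu : s.du (s.du a) = 0 := by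
    have p := lu
    rw [l1, map_neg, Derivation.leibniz, D4] at p
    simp only [smul_eq_mul, mul_zero, add_zero] at p
    apply s.h5
    linear_combination -p
  have lu0 : s.du l = 0 := by rw [lu, auu]
  have c3 : c = - (2 * (s.X * s.du a)) := by
    have q : c + 2 * (s.X * s.du a) = 0 := by
      apply s.h2; apply s.h3
      rw [lu0, map_zero, c2] at e3
      linear_combination -e3
    linear_combination q
  have cu : s.du c = 0 := by
    rw [c3]
    simp only [map_neg, Derivation.leibniz, D2, s.Xu, auu, smul_eq_mul, mul_zero, add_zero,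
      zero_add, neg_zero]
  have d1 : s.Y * (d + 2 * (s.Y * s.du a)) = 0 := by
    apply s.h2; apply s.h3
    rw [c2, cu, map_zero, c1, l1, c3] at e1
    linear_combination -e1
  have d2 : d + 2 * (s.Y * s.du a) = 0 := by
    have p := congrArg s.dy d1
    simp only [map_sub, map_add, map_neg, Derivation.leibniz, Derivation.leibniz_pow, smul_eq_mul,
      nsmul_eq_mul, s.Xy, s.Yy, D2, D3, D6, D12, s.yu a, auy, dyd, c1, map_zero, mul_zero,
      neg_zero, zero_mul, add_zero, zero_add, sub_zero, Nat.cast_ofNat, Nat.add_one_sub_one,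
      mul_one, pow_one] at p
    linear_combination p
  have d3 : d = - (2 * (s.Y * s.du a)) := by linear_combination d2
  have du0 : s.du d = 0 := by
    rw [d3]
    simp only [map_neg, Derivation.leibniz, D2, s.Yu, auu, smul_eq_mul, mul_zero, add_zero,
      zero_add, neg_zero]
  have bx0 : s.dx b = 0 := by rw [bx, cu, ax]; ring
  have by0 : s.dy b = 0 := by rw [by', du0, ay]; ring
  have n1 : (3 * s.X ^ 2 - 3 * s.Y ^ 2) * a ^ 2 + 8 * (s.X * s.du a ^ 2) = 0 := by
    have p := congrArg s.dx nul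
    simp only [map_sub, map_add, map_neg, Derivation.leibniz, Derivation.leibniz_pow, smul_eq_mul,
      nsmul_eq_mul, s.Xx, s.Yx, s.Hx, D2, D3, D6, D12, ax, bx0, dxd, c1, c2, map_zero, mul_zero,
      neg_zero, zero_mul, add_zero, zero_add, sub_zero, Nat.cast_ofNat, Nat.add_one_sub_one,
      mul_one, pow_one] at p
    rw [c3] at p
    linear_combination p
  have n2 : 6 * (s.X * a ^ 2) + 8 * (s.du a) ^ 2 = 0 := by
    have p := congrArg s.dx n1
    simp only [map_sub, map_add, map_neg, Derivation.leibniz, Derivation.leibniz_pow, smul_eq_mul,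
      nsmul_eq_mul, s.Xx, s.Yx, s.Hx, D2, D3, D6, D12, (show s.dx (8 : R) = 0 by
        rw [show (8 : R) = 4 + 4 by norm_num, map_add, D4, add_zero]), ax, s.xu a, aux, map_zero,
      mul_zero,
      neg_zero, zero_mul, add_zero, zero_add, sub_zero, Nat.cast_ofNat, Nat.add_one_sub_one,
      mul_one, pow_one] at p
    linear_combination p
  have n3 : a ^ 2 = 0 := by
    have p := congrArg s.dx n2
    simp only [map_sub, map_add, map_neg, Derivation.leibniz, Derivation.leibniz_pow, smul_eq_mul,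
      nsmul_eq_mul, s.Xx, s.Yx, s.Hx, D2, D3, D6, D12, (show s.dx (8 : R) = 0 by
        rw [show (8 : R) = 4 + 4 by norm_num, map_add, D4, add_zero]), ax, s.xu a, aux, map_zero,
      mul_zero,
      neg_zero, zero_mul, add_zero, zero_add, sub_zero, Nat.cast_ofNat, Nat.add_one_sub_one,
      mul_one, pow_one] at p
    apply s.h2; apply s.h3; linear_combination p
  have a0 : a = 0 := s.hreal 0 a (by rw [n3]; ring)
  have au0 : s.du a = 0 := by rw [a0, map_zero]
  have c0 : c = 0 := by rw [c3, au0]; ring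
  have d0 : d = 0 := by rw [d3, au0]; ring
  have l0 : l = 0 := by rw [l1, au0]; ring
  refine ⟨a0, c0, d0, ?_, ?_, bx0, by0⟩
  · apply s.h2
    rw [c0, d0, au0, l0] at uu
    linear_combination uu
  · rw [bv, l0, au0, sub_zero]

end Pool.Agent.V11202.PW
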